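import Mathlib
import Pool.Agent.MP_ada34c_an.Main

namespace Pool.Agent.Results.MP_ada34c_an.NonnegBasis

open MeasureTheory Filter Topology
open scoped ENNReal

/-- For every `1 < p < ∞` the space `L_p(ℝ)` has a Schauder basis of non-negative functions. -/
theorem result (p : ℝ≥0∞) [Fact (1 ≤ p)] (hp1 : 1 < p) (hp : p < ∞) :
    ∃ f : ℕ → Lp ℝ p (volume : Measure ℝ),
      (∀ n, ∀ᵐ x ∂(volume : Measure ℝ), 0 ≤ f n x) ∧
      ∀ g : Lp ℝ p (volume : Measure ℝ), ∃! a : ℕ → ℝ,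
        Tendsto (fun m => ∑ n ∈ Finset.range m, a n • f n) atTop (𝓝 g) :=
  Pool.Agent.MP_ada34c_an.exists_nonneg_schauder_basis hp1 hp.ne

end Pool.Agent.Results.MP_ada34c_an.NonnegBasis
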